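import Pool.Agent.Q163.KM.Cyc

set_option autoImplicit false

/-!
# The `3x+k` maps and the residue classes to ALL moduli: a local-global principle for small members

Let `k` be congruent to `1` or `5` modulo `6` and let `S` be a set of integers invariant under `T_{3,k}` and
its inverse: the basin of a cycle, the integers with (or without) eventually periodic orbit. The moduli may
have common factors with `k`; let `g = gcd (q, k)`.

(1) Level of distribution beyond the square root: on average over ALL moduli `Q ≤ q < 2 Q`, for arbitrary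
classes `a_q`, the number of the `x` in `S`, `0 < s x ≤ N`, `s x ≡ a_q` modulo `q`, is `g / q` times the number
of those with `s x ≡ a_q` modulo `g` only. (2) The variance over all classes to all moduli. (3) Local-global
principle: for all but `ε Q ^ 2` of the pairs `(q, a)` for which `S` has an element `x` of sign `s`, prime to `3`,
with `a ≡ 2 ^ i 3 ^ j s x` modulo `gcd (q, k)` (no local obstruction) there is an element `x` of `S` with
`0 < s x ≤ K q` and `s x ≡ a` modulo `q`. (4) Criterion for Q1: all orbits are eventually periodic if and only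
if above each class `b` modulo `k` a positive proportion of the pairs `(q, a)`, `k ∣ q`, `a ≡ b` modulo `k`, has
only small members with eventually periodic orbits. (5) Criterion for Q2: there are only finitely many cycles
if and only if for some `M`, above each class `b` modulo `k`, for a positive proportion of these pairs the
small members of the class lead to at most `M` cycles.
-/

namespace Pool.Agent.Results.MP_7f88e4_nt.AllModuliLocalGlobal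

/-- the `3x+k` map on the integers -/
def T (k x : ℤ) : ℤ := if x % 2 = 0 then x / 2 else (3 * x + k) / 2

/-- `S` is invariant under `T_{3,k}` and its inverse. -/
def Invariant (k : ℤ) (S : Set ℤ) : Prop := ∀ x : ℤ, x ∈ S ↔ T k x ∈ S

/-- the orbit of `n` is eventually periodic -/
def EvPer (k n : ℤ) : Prop := ∃ m p : ℕ, 1 ≤ p ∧ (T k)^[m + p] n = (T k)^[m] n

/-- `c` lies on a cycle of `T_{3,k}` -/
def Periodic (k c : ℤ) : Prop := ∃ p : ℕ, 1 ≤ p ∧ (T k)^[p] c = c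

/-- the orbit of `c` -/
def Orbit (k c : ℤ) : Set ℤ := {y | ∃ j : ℕ, (T k)^[j] c = y}

/-- the cycles of `T_{3,k}` -/
def Cycles (k : ℤ) : Set (Set ℤ) := {C | ∃ c, Periodic k c ∧ C = Orbit k c}

/-- The number of the elements `x` of `S` with `0 < s x ≤ N` and `s x ≡ a` modulo `q`. -/
noncomputable def count (S : Set ℤ) (s : ℤ) (N q : ℕ) (a : ℤ) : ℕ :=
  {x : ℤ | 0 < s * x ∧ s * x ≤ N ∧ s * x ≡ a [ZMOD q] ∧ x ∈ S}.ncard

/-- The discrepancy: the elements in the class of `a` modulo `q` against their share of those in the class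
of `a` modulo `gcd (q, k)`. -/
noncomputable def disc (S : Set ℤ) (s k : ℤ) (N q : ℕ) (a : ℤ) : ℝ :=
  (count S s N q a : ℝ) - (q.gcd k.natAbs : ℝ) / q * count S s N (q.gcd k.natAbs) a

/-- `S` has an element `x` of sign `s`, prime to `3`, such that `s x` and `a` agree modulo `g` up to a factor
`2 ^ i 3 ^ j`. -/
def Unobstructed (S : Set ℤ) (s : ℤ) (g : ℕ) (a : ℤ) : Prop :=
  ∃ x ∈ S, 0 < s * x ∧ ¬ (3 : ℤ) ∣ x ∧ ∃ i j : ℕ, a ≡ 2 ^ i * 3 ^ j * (s * x) [ZMOD g]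

/-- The pairs `(q, a)`, `Q ≤ q < 2 Q`, `0 ≤ a < q`, without local obstruction, such that no element `x` of `S`
satisfies `0 < s x ≤ X` and `s x ≡ a` modulo `q`. -/
def Missed (S : Set ℤ) (s k : ℤ) (X Q : ℕ) : Set (ℕ × ℕ) :=
  {p : ℕ × ℕ | Q ≤ p.1 ∧ p.1 < 2 * Q ∧ p.2 < p.1 ∧ Unobstructed S s (p.1.gcd k.natAbs) p.2 ∧
    ∀ x ∈ S, 0 < s * x → s * x ≤ X → ¬ s * x ≡ p.2 [ZMOD p.1]}

/-- The pairs `(q, a)`, `Q ≤ q < 2 Q`, `0 ≤ a < q`, with `k ∣ q` and `a ≡ b` modulo `k`. -/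
def Above (k b : ℤ) (Q : ℕ) : Set (ℕ × ℕ) :=
  {p | Q ≤ p.1 ∧ p.1 < 2 * Q ∧ p.2 < p.1 ∧ k ∣ (p.1 : ℤ) ∧ (p.2 : ℤ) ≡ b [ZMOD k]}

/-- All `x` with `0 < s x ≤ X` in the class of the pair `p = (q, a)` have the property `P`. -/
def Members (s : ℤ) (X : ℕ) (p : ℕ × ℕ) (P : ℤ → Prop) : Prop :=
  ∀ x : ℤ, 0 < s * x → s * x ≤ X → s * x ≡ p.2 [ZMOD p.1] → P x

open Finset

/-- **The theorem.** -/
theorem result (k : ℤ) (hk : k % 6 = 1 ∨ k % 6 = 5) :
    -- (1) the level of distribution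
    (∀ δ : ℝ, 0 < δ → δ < 1 / 2 → ∀ ε : ℝ, 0 < ε → ∃ N₀ : ℕ,
      ∀ S : Set ℤ, Invariant k S → ∀ s : ℤ, s = 1 ∨ s = -1 → ∀ N : ℕ, N₀ ≤ N → ∀ Q : ℕ, 1 ≤ Q →
      (Q : ℝ) ≤ √ ((N : ℝ) / k.natAbs) * Real.exp (Real.log ((N : ℝ) / k.natAbs) ^ (1 / 2 - δ)) →
      ∀ a : ℕ → ℤ, ∑ q ∈ Finset.Ico Q (2 * Q), |disc S s k N q (a q)| ≤ ε * N) ∧
    -- (2) the variance over all residue classes
    (∃ C : ℝ, ∀ ε : ℝ, 0 < ε → ∃ N₀ : ℕ,
      ∀ S : Set ℤ, Invariant k S → ∀ s : ℤ, s = 1 ∨ s = -1 → ∀ N : ℕ, N₀ ≤ N → ∀ Q : ℕ, 1 ≤ Q →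
        ∑ q ∈ Finset.Ico Q (2 * Q), ∑ a ∈ Finset.range q, disc S s k N q (a : ℤ) ^ 2 ≤ ε * N ^ 2 + C * Q * N) ∧
    -- (3) small elements in almost all residue classes without local obstruction
    (∀ S : Set ℤ, Invariant k S → ∀ s : ℤ, s = 1 ∨ s = -1 → ∀ ε : ℝ, 0 < ε → ∃ K : ℕ, ∃ Q₀ : ℕ, ∀ Q : ℕ, Q₀ ≤ Q →
      ((Missed S s k (K * Q) Q).ncard : ℝ) ≤ ε * Q ^ 2) ∧
    -- (4) Q1 for `k`
    ((∀ x, EvPer k x) ↔ ∀ s : ℤ, s = 1 ∨ s = -1 → ∀ b : ℤ, ∃ c : ℝ, 0 < c ∧ ∀ K Q₀ : ℕ, ∃ Q : ℕ, Q₀ ≤ Q ∧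
      c * Q ^ 2 ≤ (({p | p ∈ Above k b Q ∧ Members s (K * Q) p (EvPer k)} : Set (ℕ × ℕ)).ncard : ℝ)) ∧
    -- (5) Q2 for `k`
    ((Cycles k).Finite ↔ ∃ M : ℕ, ∀ s : ℤ, s = 1 ∨ s = -1 → ∀ b : ℤ, ∃ c : ℝ, 0 < c ∧
      ∀ K Q₀ : ℕ, ∃ Q : ℕ, Q₀ ≤ Q ∧
      c * Q ^ 2 ≤ (({p | p ∈ Above k b Q ∧ ∃ F : Finset ℤ, #F ≤ M ∧ (∀ f ∈ F, Periodic k f) ∧
        Members s (K * Q) p (fun x => EvPer k x → ∃ f ∈ F, f ∈ Orbit k x)} : Set (ℕ × ℕ)).ncard : ℝ)) := by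
  have hd : k % 2 = 1 := by omega
  have hk0 : k ≠ 0 := by rintro rfl; norm_num at hk
  have hD1 : 1 ≤ k.natAbs := Int.natAbs_pos.2 hk0
  have hτ : 0 < #k.natAbs.divisors := card_pos.2 ⟨1, Nat.mem_divisors.2 ⟨one_dvd _, by omega⟩⟩
  have hτ0 : (0 : ℝ) < (#k.natAbs.divisors : ℕ) := by exact_mod_cast hτ
  refine ⟨?_, ?_, ?_, Pool.Agent.Q163.KM.crit1 hk, Pool.Agent.Q163.KM.crit2 hk⟩
  · intro δ hδ hδ2 ε hε
    obtain ⟨N₀, -, h⟩ := Pool.Agent.Q163.KM.level_all hδ hδ2 (show 0 < ε / (#k.natAbs.divisors : ℕ) by positivity)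
    refine ⟨N₀ * k.natAbs, fun S hS s hs N hN Q hQ hQl a => ?_⟩
    have h1 := h k hd S hS s hs N hN Q hQ hQl a
    simp_rw [Pool.Agent.Q163.KM.Dl_cnt hs] at h1
    refine h1.trans (le_of_eq ?_)
    field_simp
  · refine ⟨(#k.natAbs.divisors : ℕ) * (288 * k.natAbs), fun ε hε => ?_⟩
    obtain ⟨N₀, -, h⟩ := Pool.Agent.Q163.KM.var_all (show 0 < ε / (#k.natAbs.divisors : ℕ) by positivity)
    refine ⟨N₀ * k.natAbs, fun S hS s hs N hN Q hQ => ?_⟩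
    have h1 := h k hd S hS s hs N hN Q hQ
    simp_rw [Pool.Agent.Q163.KM.Dl_cnt hs] at h1
    refine h1.trans (le_of_eq ?_)
    field_simp
  · intro S hS s hs ε hε
    exact Pool.Agent.Q163.KM.miss_all hk hS hs hε

end Pool.Agent.Results.MP_7f88e4_nt.AllModuliLocalGlobal
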