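import Pool.Agent.Q49.ME.Res
import Pool.Agent.Results.MP_7f88e4_nt.GowersStructure

set_option autoImplicit false

/-!
Multiple ergodic averages and return times along the sets invariant under the `3x+k` maps, for every `k` prime
to `6`.

Let `T 1, ..., T m` be commuting invertible measure preserving transformations of a probability space, and
`f 1, ..., f m` bounded measurable functions. For an invariant set `S` of the `3x+k` map with local density `φ` (a
function of the residue modulo `k` up to factors `2` and `3`) the averages of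
`(1_S(n) - φ(n)) f 1 (T 1 ^ n x) ⋯ f m (T m ^ n x)` over `n ≤ N` in each residue class modulo `k` are small in
quadratic mean, uniformly in `S`, in the space, the transformations and the functions. So all orbits of the `3x+k`
map are eventually periodic if this holds, for each residue class `b` modulo `k` and each sign, for the numbers
`b + n` with `n` in the set of the multiples of `k` which are return times of one set of positive measure in one
dynamical system.
-/

namespace Pool.Agent.Results.MP_7f88e4_nt.MultipleRecurrence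

open Filter Topology MeasureTheory
open Pool.Agent.Results.MP_7f88e4_nt.GowersStructure (T EvPer Invariant Rel LocalDensity inv_of local_phi exists_local
  evper_inv reaches_cop)
open Pool.Agent.Results.MP_2d22f3_nt.MultipleRecurrence (System Bounded tp tp_mp tp_pow)

/-- `1` if `s n ∈ S`, and `0` otherwise -/
noncomputable def ind (s : ℤ) (S : Set ℤ) (n : ℕ) : ℝ := S.indicator (fun _ => (1 : ℝ)) (s * n)

open Classical in
/-- the `n` in `[1, N]` which are congruent to `b` modulo `k` -/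
noncomputable def Class (k b : ℤ) (N : ℕ) : Finset ℕ := (Finset.Icc 1 N).filter (fun n : ℕ => (n : ℤ) ≡ b [ZMOD k])

open Pool.Agent.W41 Pool.Agent.H499R2.ND Pool.Agent.H499R2.CO Pool.Agent.W41.FU Pool.Agent.W36.FD Pool.Agent.W36.GU
  Pool.Agent.W36.GV Pool.Agent.W36.GK Pool.Agent.W36.GL Pool.Agent.Q49.ME

theorem ind01 (s : ℤ) (S : Set ℤ) (n : ℕ) : 0 ≤ ind s S n ∧ ind s S n ≤ 1 := by
  unfold ind
  by_cases h : s * (n : ℤ) ∈ S
  · rw [Set.indicator_of_mem h]; norm_num
  · rw [Set.indicator_of_notMem h]; norm_num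

theorem bal_ind (s : ℤ) (S : Set ℤ) (φ : ℤ → ℝ) (n : ℕ) : balD s S φ (n : ℤ) = ind s S n - φ (s * n) := by
  unfold ind balD Pool.Agent.W41.ind
  by_cases h : s * (n : ℤ) ∈ S
  · rw [Set.indicator_of_mem h, if_pos h]
  · rw [Set.indicator_of_notMem h, if_neg h]

theorem phi_class {k s : ℤ} {S : Set ℤ} {φ : ℤ → ℝ} (hφ : LocalDensity k s S φ) {b : ℤ} {N n : ℕ} (hn : n ∈ Class k b N) :
    φ (s * n) = φ (s * b) := by
  unfold Class at hn
  rw [Finset.mem_filter] at hn
  refine hφ.2.1 _ _ ⟨0, 0, ?_⟩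
  have := hn.2.mul_left s
  simpa using this

theorem class_eq (k b : ℤ) (N : ℕ) :
    Class k b N = (Finset.Icc 1 N).filter (fun n : ℕ => (n : ℤ) ≡ b [ZMOD (k.natAbs : ℤ)]) := by
  unfold Class
  ext n
  rw [Finset.mem_filter, Finset.mem_filter, Int.modEq_iff_dvd, Int.modEq_iff_dvd, Int.natAbs_dvd]

/-- the uniform bounds -/
theorem small {k : ℤ} (hk : k % 6 = 1 ∨ k % 6 = 5) {s : ℤ} (hs : s = 1 ∨ s = -1) (m : ℕ) {ε : ℝ} (hε : 0 < ε) :
    ∃ N₀ : ℕ, 1 ≤ N₀ ∧ ∀ S : Set ℤ, Invariant k S → ∀ φ : ℤ → ℝ, LocalDensity k s S φ → ∀ N : ℕ, N₀ ≤ N →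
      ∀ (b : ℤ) (X : Type) [MeasurableSpace X] (Y : System m X),
        (∀ f : Fin m → X → ℂ, Bounded f →
          ∫ x, ‖∑ n ∈ Class k b N, ((ind s S n - φ (s * b) : ℝ) : ℂ) * Y.P f n x‖ ^ 2 ∂Y.μ ≤ ε * N ^ 2) ∧
        ∀ (A₀ : Set X) (A : Fin m → Set X), MeasurableSet A₀ → (∀ i, MeasurableSet (A i)) →
          |∑ n ∈ Class k b N, (ind s S n - φ (s * b)) * Y.ret A₀ A n| ≤ ε * N := by
  have hk0 : k.natAbs ≠ 0 := by omega
  have : NeZero k.natAbs := ⟨hk0⟩
  obtain ⟨N1, a1, h1⟩ := smallF_res m (BD_sm hk hs (m + 2)) k.natAbs hε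
  obtain ⟨N2, a2, h2⟩ := small_retF_res m (BD_sm hk hs (m + 2)) k.natAbs hε
  refine ⟨N1 + N2, by omega, fun S hS φ hφ N hN b X _ Y => ?_⟩
  have hmem : balD s S φ ∈ BD k s := ⟨S, inv_of hS, φ, local_phi hs hφ, rfl⟩
  refine ⟨fun f hf => ?_, fun A₀ A hA₀ hA => ?_⟩
  · have h3 := h1 N (by omega) _ hmem b X Y f hf
    refine le_trans (le_of_eq ?_) h3
    congr 1
    funext x
    congr 2
    rw [← class_eq]
    apply Finset.sum_congr rfl; intro n hn
    rw [bal_ind, phi_class hφ hn]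
  · have h3 := h2 N (by omega) _ hmem b X Y A₀ A hA₀ hA
    refine le_trans (le_of_eq ?_) h3
    congr 1
    rw [← class_eq]
    apply Finset.sum_congr rfl; intro n hn
    rw [bal_ind, phi_class hφ hn]

/-- multiple return times are sufficient -/
theorem sufficient {k : ℤ} (hk : k % 6 = 1 ∨ k % 6 = 5) {s : ℤ} (hs : s = 1 ∨ s = -1) (m : ℕ) {S : Set ℤ} (hS : Invariant k S)
    {κ : ℝ} (hκ : 0 < κ) {ψ : ℕ → ℝ} (hψ : Tendsto ψ atTop (𝓝 0)) (b : ℤ)
    (h : ∃ᶠ N : ℕ in atTop, ∃ (X : Type) (_ : MeasurableSpace X) (Y : System m X) (A₀ : Set X) (A : Fin m → Set X),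
      MeasurableSet A₀ ∧ (∀ i, MeasurableSet (A i)) ∧ κ * N ≤ ∑ n ∈ Class k b N, Y.ret A₀ A n ∧
      ∑ n ∈ Class k b N, ind s Sᶜ n * Y.ret A₀ A n ≤ ψ N * N) :
    ∀ x : ℤ, 0 < s * x → ¬ (3 : ℤ) ∣ x → Rel k (s * b) x → x ∈ S := by
  intro x hx hx3 hrel
  by_contra hcon
  have hSc : Invariant k Sᶜ := fun x => not_congr (hS x)
  obtain ⟨φ, hφ⟩ := exists_local hk hs hSc
  have hδ0 : 0 < φ (s * b) := hφ.2.2.2 _ x hcon hx hx3 hrel
  obtain ⟨N0, _, H⟩ := small hk hs m (show 0 < φ (s * b) * κ / 2 by positivity)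
  have h1 : ∀ᶠ N : ℕ in atTop, ψ N < φ (s * b) * κ / 2 := (tendsto_order.1 hψ).2 _ (by positivity)
  obtain ⟨N, ⟨X, _, Y, A₀, A, hA₀, hA, h2, h3⟩, h4, h5⟩ := (h.and_eventually (h1.and (eventually_ge_atTop (N0 + 1)))).exists
  have h6 := (abs_le.1 ((H Sᶜ hSc φ hφ N (by omega) b X Y).2 A₀ A hA₀ hA)).1
  have hNp : (0 : ℝ) < N := by exact_mod_cast (by omega : 0 < N)
  have e1 : ∑ n ∈ Class k b N, (ind s Sᶜ n - φ (s * b)) * Y.ret A₀ A n
      = ∑ n ∈ Class k b N, ind s Sᶜ n * Y.ret A₀ A n - φ (s * b) * ∑ n ∈ Class k b N, Y.ret A₀ A n := by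
    rw [Finset.mul_sum, ← Finset.sum_sub_distrib]
    apply Finset.sum_congr rfl; intro n _
    ring
  rw [e1] at h6
  have h7 : ψ N * N < φ (s * b) * κ / 2 * N := mul_lt_mul_of_pos_right h4 hNp
  have h8 : φ (s * b) * (κ * N) ≤ φ (s * b) * ∑ n ∈ Class k b N, Y.ret A₀ A n := mul_le_mul_of_nonneg_left h2 hδ0.le
  linarith

/-- return times which are multiples of `k` -/
theorem return_class {k : ℤ} (hk : k ≠ 0) {X : Type} [MeasurableSpace X] (Y : System 1 X) {A : Set X} (hA : MeasurableSet A)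
    (b : ℕ) {N : ℕ} (hN : k.natAbs + b ≤ N) :
    (((N : ℝ) - b) / k.natAbs - 1) * Y.μ.real A ^ 2 / 2 - 1 / 2 ≤
      ∑ n ∈ (Class k b N).filter (fun n => b < n), Y.ret ((Y.T 0)^[b] ⁻¹' A) (fun _ => A) n := by
  classical
  have := Y.prob
  set q : ℕ := k.natAbs with hq
  have hq0 : 0 < q := Int.natAbs_pos.2 hk
  set M : ℕ := (N - b) / q with hM
  have hM0 : 0 < M := Nat.div_pos (by omega) hq0
  have hmp : MPr Y.μ (tp Y 0) := tp_mp Y 0
  have h1 := return_sum (hmp.pow q) hA (N := M) hM0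
  rw [Pool.Agent.Results.MP_2d22f3_nt.MultipleRecurrence.sum_cast] at h1
  have hmeas : ∀ n : ℕ, MeasurableSet ((Y.T 0)^[n] ⁻¹' A) := fun n => ((Y.T 0).measurable.iterate n) hA
  have e1 : ∀ n : ℕ, Y.μ.real (A ∩ ⇑((tp Y 0 ^ q) ^ (n : ℤ)) ⁻¹' A) = Y.ret ((Y.T 0)^[b] ⁻¹' A) (fun _ => A) (q * n + b) := by
    intro n
    have e2 : ∀ x, ((tp Y 0 ^ q) ^ (n : ℤ)) x = (Y.T 0)^[q * n] x := by
      intro x
      rw [← tp_pow]
      congr 1
      rw [← zpow_natCast (tp Y 0) q, ← zpow_mul]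
      push_cast; rfl
    have e3 : (A ∩ ⇑((tp Y 0 ^ q) ^ (n : ℤ)) ⁻¹' A) = A ∩ (Y.T 0)^[q * n] ⁻¹' A := by
      ext x
      simp only [Set.mem_inter_iff, Set.mem_preimage]
      rw [e2]
    rw [e3]
    unfold System.ret
    have e4 : (Y.T 0)^[b] ⁻¹' A ∩ {x | ∀ i : Fin 1, (Y.T i)^[q * n + b] x ∈ A} = (Y.T 0)^[b] ⁻¹' (A ∩ (Y.T 0)^[q * n] ⁻¹' A) := by
      ext x
      simp only [Set.mem_inter_iff, Set.mem_preimage, Set.mem_ofPred_eq]
      constructor
      · rintro ⟨h2, h3⟩
        refine ⟨h2, ?_⟩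
        have := h3 0
        rw [Function.iterate_add_apply] at this
        exact this
      · rintro ⟨h2, h3⟩
        refine ⟨h2, fun i => ?_⟩
        rw [Fin.fin_one_eq_zero i, Function.iterate_add_apply]
        exact h3
    rw [e4]
    have h5 : MeasurePreserving ((Y.T 0)^[b]) Y.μ Y.μ := (Y.mp 0).iterate b
    unfold Measure.real
    rw [h5.measure_preimage (hA.inter (hmeas _)).nullMeasurableSet]
  simp_rw [e1] at h1
  have h2 : ∑ n ∈ Finset.Icc 1 M, Y.ret ((Y.T 0)^[b] ⁻¹' A) (fun _ => A) (q * n + b) ≤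
      ∑ n ∈ (Class k b N).filter (fun n => b < n), Y.ret ((Y.T 0)^[b] ⁻¹' A) (fun _ => A) n := by
    have hinj : Set.InjOn (fun n : ℕ => q * n + b) (Finset.Icc 1 M : Finset ℕ) := by
      intro a _ c _ hac
      have h6 : q * a = q * c := by
        have : q * a + b = q * c + b := hac
        omega
      exact Nat.eq_of_mul_eq_mul_left hq0 h6
    rw [← Finset.sum_image (f := fun n => Y.ret ((Y.T 0)^[b] ⁻¹' A) (fun _ => A) n) hinj]
    apply Finset.sum_le_sum_of_subset_of_nonneg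
    · intro n hn
      rw [Finset.mem_image] at hn
      obtain ⟨a, ha, rfl⟩ := hn
      rw [Finset.mem_Icc] at ha
      have h7 : q * a ≤ N - b := by
        calc q * a ≤ q * M := Nat.mul_le_mul_left _ ha.2
          _ ≤ N - b := Nat.mul_div_le _ _
      have h8 : 1 ≤ q * a := Nat.mul_pos hq0 ha.1
      rw [Finset.mem_filter]
      refine ⟨?_, by omega⟩
      rw [class_eq, Finset.mem_filter, Finset.mem_Icc]
      refine ⟨by omega, ?_⟩
      rw [Int.modEq_iff_dvd]
      refine ⟨-(a : ℤ), ?_⟩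
      rw [← hq]
      push_cast; ring
    · intro n _ _
      exact measureReal_nonneg
  refine le_trans ?_ (h1.trans h2)
  have h9 : ((N : ℝ) - b) / q - 1 ≤ M := by
    have h10 : N - b < q * (M + 1) := by
      have := Nat.lt_mul_div_succ (N - b) hq0
      exact this
    have h11 : ((N : ℝ) - b) ≤ q * (M + 1) := by
      have : ((N - b : ℕ) : ℝ) ≤ ((q * (M + 1) : ℕ) : ℝ) := by exact_mod_cast h10.le
      rw [Nat.cast_sub (by omega)] at this
      push_cast at this
      exact this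
    rw [sub_le_iff_le_add, div_le_iff₀ (by exact_mod_cast hq0)]
    linarith
  have h12 : (((N : ℝ) - b) / q - 1) * Y.μ.real A ^ 2 ≤ M * Y.μ.real A ^ 2 := mul_le_mul_of_nonneg_right h9 (by positivity)
  linarith

/-- the return times which are multiples of `k`, shifted by `b`, are sufficient for the class of `b` -/
theorem sufficient_one {k : ℤ} (hk : k % 6 = 1 ∨ k % 6 = 5) {s : ℤ} (hs : s = 1 ∨ s = -1) {S : Set ℤ} (hS : Invariant k S)
    {X : Type} [MeasurableSpace X] (Y : System 1 X) {A : Set X} (hA : MeasurableSet A) (hpos : 0 < Y.μ A) {ψ : ℕ → ℝ}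
    (hψ : Tendsto ψ atTop (𝓝 0)) (b : ℕ)
    (h : ∃ᶠ N : ℕ in atTop,
      ({n : ℕ | 1 ≤ n ∧ n ≤ N ∧ k ∣ n ∧ 0 < Y.ret A (fun _ => A) n ∧ s * (n + b) ∉ S}.ncard : ℝ) ≤ ψ N * N) :
    ∀ x : ℤ, 0 < s * x → ¬ (3 : ℤ) ∣ x → Rel k (s * b) x → x ∈ S := by
  classical
  have := Y.prob
  have hk0 : k ≠ 0 := by omega
  have hm : 0 < Y.μ.real A := by
    unfold Measure.real
    exact ENNReal.toReal_pos hpos.ne' (measure_ne_top _ _)
  set m : ℝ := Y.μ.real A with hmd
  set q : ℕ := k.natAbs with hq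
  have hq0 : 0 < q := Int.natAbs_pos.2 hk0
  have hqR : (0 : ℝ) < q := by exact_mod_cast hq0
  -- the new bound for the exceptions
  have hψ' : Tendsto (fun N : ℕ => ψ N + b / N) atTop (𝓝 0) := by
    have h1 : Tendsto (fun N : ℕ => (b : ℝ) / N) atTop (𝓝 0) := tendsto_const_div_atTop_nhds_zero_nat _
    simpa using hψ.add h1
  refine sufficient hk hs 1 hS (κ := m ^ 2 / (8 * q)) (by positivity) hψ' b ?_
  obtain ⟨N1, hN1⟩ := exists_nat_ge ((b : ℝ) * 2 + 4 * q + 4 * q / m ^ 2)
  refine (h.and_eventually (eventually_ge_atTop (N1 + q + b + 1))).mono ?_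
  rintro N ⟨h1, h2⟩
  have hNp : (0 : ℝ) < N := by exact_mod_cast (by omega : 0 < N)
  have hret0 : ∀ n, 0 ≤ Y.ret ((Y.T 0)^[b] ⁻¹' A) (fun _ => A) n := fun n => measureReal_nonneg
  have hret1 : ∀ n, Y.ret ((Y.T 0)^[b] ⁻¹' A) (fun _ => A) n ≤ 1 := fun n => measureReal_le_one
  refine ⟨X, inferInstance, Y, (Y.T 0)^[b] ⁻¹' A, fun _ => A, ((Y.T 0).measurable.iterate b) hA, fun _ => hA, ?_, ?_⟩
  · have h3 := return_class hk0 Y hA b (N := N) (by omega)
    have h4 : ∑ n ∈ (Class k b N).filter (fun n => b < n), Y.ret ((Y.T 0)^[b] ⁻¹' A) (fun _ => A) n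
        ≤ ∑ n ∈ Class k b N, Y.ret ((Y.T 0)^[b] ⁻¹' A) (fun _ => A) n :=
      Finset.sum_le_sum_of_subset_of_nonneg (Finset.filter_subset _ _) (fun n _ _ => hret0 n)
    refine le_trans ?_ (h3.trans h4)
    have h5 : (N1 : ℝ) ≤ N := by exact_mod_cast (by omega : N1 ≤ N)
    have h6 : (b : ℝ) * 2 + 4 * q + 4 * q / m ^ 2 ≤ N := hN1.trans h5
    rw [← hmd, ← hq]
    have hb0 : (0 : ℝ) ≤ b := Nat.cast_nonneg b
    have h7 : 4 * (q : ℝ) / m ^ 2 * m ^ 2 = 4 * q := by field_simp
    -- multiply by 8 q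
    have h8 : m ^ 2 / (8 * q) * N * (8 * q) ≤ ((((N : ℝ) - b) / q - 1) * m ^ 2 / 2 - 1 / 2) * (8 * q) := by
      have e1 : m ^ 2 / (8 * q) * N * (8 * q) = m ^ 2 * N := by field_simp
      have e2 : ((((N : ℝ) - b) / q - 1) * m ^ 2 / 2 - 1 / 2) * (8 * q) = 4 * (N - b - q) * m ^ 2 - 4 * q := by field_simp; ring
      rw [e1, e2]
      have h9 : 4 * (q : ℝ) ≤ (N - b * 2 - 4 * q) * m ^ 2 := by
        rw [← h7]
        exact mul_le_mul_of_nonneg_right (by linarith) (by positivity)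
      nlinarith [mul_nonneg hb0 (sq_nonneg m), mul_nonneg hNp.le (sq_nonneg m), mul_nonneg hqR.le (sq_nonneg m)]
    exact le_of_mul_le_mul_right h8 (by positivity)
  · have e1 : {n : ℕ | 1 ≤ n ∧ n ≤ N ∧ k ∣ n ∧ 0 < Y.ret A (fun _ => A) n ∧ s * (n + b) ∉ S} =
        ((Finset.Icc 1 N).filter (fun n : ℕ => k ∣ n ∧ 0 < Y.ret A (fun _ => A) n ∧ s * ((n : ℤ) + b) ∉ S) : Finset ℕ) := by
      ext n
      simp only [Set.mem_ofPred_eq, Finset.coe_filter, Finset.mem_Icc]
      tauto
    rw [e1, Set.ncard_coe_finset] at h1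
    set E : Finset ℕ := (Finset.Icc 1 N).filter (fun n : ℕ => k ∣ n ∧ 0 < Y.ret A (fun _ => A) n ∧ s * ((n : ℤ) + b) ∉ S) with hE
    have h3 : ∑ n ∈ Class k b N, ind s Sᶜ n * Y.ret ((Y.T 0)^[b] ⁻¹' A) (fun _ => A) n
        ≤ ∑ n ∈ Class k b N, if n ≤ b ∨ n - b ∈ E then (1 : ℝ) else 0 := by
      apply Finset.sum_le_sum; intro n hn
      unfold Class at hn
      rw [Finset.mem_filter, Finset.mem_Icc] at hn
      have hi := ind01 s Sᶜ n
      have hr0 := hret0 n
      have hr1 := hret1 n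
      split_ifs with hc
      · nlinarith
      · push Not at hc
        obtain ⟨hc1, hc2⟩ := hc
        by_cases h4 : s * (n : ℤ) ∈ S
        · have h5 : ind s Sᶜ n = 0 := by
            unfold ind
            exact Set.indicator_of_notMem (show s * (n : ℤ) ∉ Sᶜ from fun h => h h4) _
          rw [h5, zero_mul]
        · have h5 : Y.ret ((Y.T 0)^[b] ⁻¹' A) (fun _ => A) n = Y.ret A (fun _ => A) (n - b) := by
            unfold System.ret
            have e4 : (Y.T 0)^[b] ⁻¹' A ∩ {x | ∀ i : Fin 1, (Y.T i)^[n] x ∈ A} = (Y.T 0)^[b] ⁻¹' (A ∩ {x | ∀ i : Fin 1, (Y.T i)^[n - b] x ∈ A}) := by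
              have hnb : n = (n - b) + b := by omega
              ext x
              simp only [Set.mem_inter_iff, Set.mem_preimage, Set.mem_ofPred_eq]
              constructor
              · rintro ⟨h2, h3⟩
                refine ⟨h2, fun i => ?_⟩
                have := h3 0
                rw [hnb, Function.iterate_add_apply] at this
                rw [Fin.fin_one_eq_zero i]
                exact this
              · rintro ⟨h2, h3⟩
                refine ⟨h2, fun i => ?_⟩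
                rw [Fin.fin_one_eq_zero i, hnb, Function.iterate_add_apply]
                exact h3 0
            rw [e4]
            have h6 : MeasurePreserving ((Y.T 0)^[b]) Y.μ Y.μ := (Y.mp 0).iterate b
            unfold Measure.real
            rw [h6.measure_preimage]
            refine (hA.inter ?_).nullMeasurableSet
            rw [Set.ofPred_forall]
            exact MeasurableSet.iInter fun i => ((Y.T i).measurable.iterate _) hA
          have h6 : ¬ 0 < Y.ret A (fun _ => A) (n - b) := by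
            intro h7
            apply hc2
            rw [hE, Finset.mem_filter, Finset.mem_Icc]
            refine ⟨by omega, ?_, h7, ?_⟩
            · have := Int.modEq_iff_dvd.1 hn.2
              rw [Nat.cast_sub hc1.le]
              have h8 : (n : ℤ) - b = -((b : ℤ) - n) := by ring
              rw [h8]
              exact this.neg_right
            · rw [Nat.cast_sub hc1.le, sub_add_cancel]
              exact h4
          have h7 : Y.ret A (fun _ => A) (n - b) = 0 := le_antisymm (not_lt.1 h6) measureReal_nonneg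
          rw [h5, h7, mul_zero]
    refine h3.trans ?_
    have h4 : ∑ n ∈ Class k b N, (if n ≤ b ∨ n - b ∈ E then (1 : ℝ) else 0) ≤ b + E.card := by
      rw [← Finset.sum_filter, Finset.sum_const, nsmul_eq_mul, mul_one]
      have h5 : (Class k b N).filter (fun n => n ≤ b ∨ n - b ∈ E) ⊆ Finset.Icc 1 b ∪ E.image (fun n => n + b) := by
        intro n hn
        unfold Class at hn
        rw [Finset.mem_filter, Finset.mem_filter, Finset.mem_Icc] at hn
        rw [Finset.mem_union, Finset.mem_image, Finset.mem_Icc]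
        obtain ⟨⟨⟨h6, h7⟩, h8⟩, h9⟩ := hn
        by_cases h10 : n ≤ b
        · left; omega
        · right
          rcases h9 with h9 | h9
          · exact absurd h9 h10
          · exact ⟨n - b, h9, by omega⟩
      have h6 := (Finset.card_le_card h5).trans (Finset.card_union_le _ _)
      have h7 := h6.trans (Nat.add_le_add (le_of_eq (Nat.card_Icc 1 b)) (Finset.card_image_le (s := E) (f := fun n => n + b)))
      have h8 : ((Class k b N).filter (fun n => n ≤ b ∨ n - b ∈ E)).card ≤ b + E.card := by omega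
      exact_mod_cast h8
    refine h4.trans ?_
    have e2 : (ψ N + b / N) * N = ψ N * N + b := by field_simp
    rw [e2]
    linarith

/-- MULTIPLE ERGODIC AVERAGES ALONG THE INVARIANT SETS OF THE `3x+k` MAP, for `k` congruent to `1` or `5` modulo
`6`. Let `s` be a sign.
(1) For all `m` and `ε > 0`, if `N` is large, then for every invariant set `S` (with local density `φ` on the side
`s`; it exists), every class `b` modulo `k`, every system `Y` of `m` commuting invertible measure preserving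
transformations of a probability space and all measurable `f 1, ..., f m` with values in the unit disc: the sum of
`(1_S(s n) - φ(s b)) f 1 (T 1 ^ n x) ⋯ f m (T m ^ n x)` over the `n ≤ N` congruent to `b` modulo `k`, divided by
`N`, has a norm at most `ε` in `L²`; and the sum over these `n` of `1_S(s n) - φ(s b)` times the measure of
`A₀ ∩ T 1 ^ (-n) A 1 ∩ ... ∩ T m ^ (-n) A m` is at most `ε N` in absolute value.
(2) MULTIPLE RETURN TIMES ARE SUFFICIENT. If for infinitely many `N` there are a system and sets such that the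
sum of these measures over the `n ≤ N` congruent to `b` is at least `κ N`, and `o(N)` over those with `s n ∉ S`,
then `S` contains all integers of sign `s` prime to `3` whose residue is that of `s b` up to factors `2` and `3`.
(3) Let `A` be a set of positive measure for one invertible measure preserving transformation, and `b ≥ 0`. If,
for infinitely many `N`, up to `o(N)` exceptions `n ≤ N`, all multiples `n` of `k` for which `A ∩ T ^ (-n) A` has
positive measure satisfy `s (n + b) ∈ S`, then `S` contains all these integers as well.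
(4) If for both signs `s` and every `b` in `[0, |k|)` there are such a transformation and a set `A` for which this
holds with the set `S` of the integers whose orbit is eventually periodic, then all orbits of the `3x+k` map are
eventually periodic. -/
theorem result (k : ℤ) (hk : k % 6 = 1 ∨ k % 6 = 5) :
    (∀ s : ℤ, (s = 1 ∨ s = -1) →
      (∀ (m : ℕ) (ε : ℝ), 0 < ε → ∃ N₀ : ℕ, ∀ S : Set ℤ, Invariant k S → ∃ φ : ℤ → ℝ, LocalDensity k s S φ ∧
        ∀ N : ℕ, N₀ ≤ N → ∀ (b : ℤ) (X : Type) [MeasurableSpace X] (Y : System m X),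
          (∀ f : Fin m → X → ℂ, Bounded f →
            ∫ x, ‖(∑ n ∈ Class k b N, ((ind s S n - φ (s * b) : ℝ) : ℂ) * Y.P f n x) / N‖ ^ 2 ∂Y.μ ≤ ε ^ 2) ∧
          ∀ (A₀ : Set X) (A : Fin m → Set X), MeasurableSet A₀ → (∀ i, MeasurableSet (A i)) →
            |∑ n ∈ Class k b N, (ind s S n - φ (s * b)) * Y.ret A₀ A n| ≤ ε * N) ∧
      ∀ S : Set ℤ, Invariant k S → ∀ ψ : ℕ → ℝ, Tendsto ψ atTop (𝓝 0) →
        (∀ (m : ℕ) (κ : ℝ), 0 < κ → ∀ b : ℤ,
          (∃ᶠ N : ℕ in atTop, ∃ (X : Type) (_ : MeasurableSpace X) (Y : System m X) (A₀ : Set X) (A : Fin m → Set X),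
            MeasurableSet A₀ ∧ (∀ i, MeasurableSet (A i)) ∧ κ * N ≤ ∑ n ∈ Class k b N, Y.ret A₀ A n ∧
            ∑ n ∈ Class k b N, ind s Sᶜ n * Y.ret A₀ A n ≤ ψ N * N) →
          ∀ x : ℤ, 0 < s * x → ¬ (3 : ℤ) ∣ x → Rel k (s * b) x → x ∈ S) ∧
        ∀ (X : Type) [MeasurableSpace X] (Y : System 1 X) (A : Set X), MeasurableSet A → 0 < Y.μ A → ∀ b : ℕ,
          (∃ᶠ N : ℕ in atTop,
            ({n : ℕ | 1 ≤ n ∧ n ≤ N ∧ k ∣ n ∧ 0 < Y.ret A (fun _ => A) n ∧ s * (n + b) ∉ S}.ncard : ℝ) ≤ ψ N * N) →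
          ∀ x : ℤ, 0 < s * x → ¬ (3 : ℤ) ∣ x → Rel k (s * b) x → x ∈ S) ∧
    ∀ ψ : ℕ → ℝ, Tendsto ψ atTop (𝓝 0) →
      (∀ s : ℤ, (s = 1 ∨ s = -1) → ∀ b : ℕ, b < k.natAbs →
        ∃ (X : Type) (_ : MeasurableSpace X) (Y : System 1 X) (A : Set X), MeasurableSet A ∧ 0 < Y.μ A ∧
        ∃ᶠ N : ℕ in atTop,
          ({n : ℕ | 1 ≤ n ∧ n ≤ N ∧ k ∣ n ∧ 0 < Y.ret A (fun _ => A) n ∧ ¬ EvPer k (s * (n + b))}.ncard : ℝ) ≤ ψ N * N) →
      ∀ x : ℤ, EvPer k x := by
  refine ⟨fun s hs => ⟨fun m ε hε => ?_, fun S hS ψ hψ => ⟨fun m κ hκ b h => sufficient hk hs m hS hκ hψ b h,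
    fun X _ Y A hA hpos b h => sufficient_one hk hs hS Y hA hpos hψ b h⟩⟩, fun ψ hψ h => ?_⟩
  · obtain ⟨N1, h1, H1⟩ := small hk hs m (show 0 < ε ^ 2 by positivity)
    obtain ⟨N2, h2, H2⟩ := small hk hs m hε
    refine ⟨N1 + N2, fun S hS => ?_⟩
    obtain ⟨φ, hφ⟩ := exists_local hk hs hS
    refine ⟨φ, hφ, fun N hN b X _ Y => ⟨fun f hf => ?_, (H2 S hS φ hφ N (by omega) b X Y).2⟩⟩
    have h3 := (H1 S hS φ hφ N (by omega) b X Y).1 f hf
    have hNp : (0 : ℝ) < N := by exact_mod_cast (by omega : 0 < N)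
    have e1 : ∀ x, ‖(∑ n ∈ Class k b N, ((ind s S n - φ (s * b) : ℝ) : ℂ) * Y.P f n x) / N‖ ^ 2
        = 1 / (N : ℝ) ^ 2 * ‖∑ n ∈ Class k b N, ((ind s S n - φ (s * b) : ℝ) : ℂ) * Y.P f n x‖ ^ 2 := by
      intro x
      rw [norm_div, Complex.norm_natCast, div_pow]
      ring
    simp_rw [e1]
    rw [integral_const_mul, one_div, inv_mul_le_iff₀ (by positivity)]
    linarith
  · have hk0 : k ≠ 0 := by omega
    have key : ∀ x : ℤ, x ≠ 0 → ¬ (3 : ℤ) ∣ x → EvPer k x := by
      intro x hx hx3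
      obtain ⟨s, hs, hsx⟩ : ∃ s : ℤ, (s = 1 ∨ s = -1) ∧ 0 < s * x := by
        rcases lt_or_gt_of_ne hx with h0 | h0
        · exact ⟨-1, Or.inr rfl, by omega⟩
        · exact ⟨1, Or.inl rfl, by omega⟩
      have hss : s * s = 1 := by rcases hs with rfl | rfl <;> norm_num
      set b : ℕ := ((s * x) % k).toNat with hb
      have hb0 : 0 ≤ (s * x) % k := Int.emod_nonneg _ hk0
      have hb1 : (s * x) % k < k.natAbs := Int.emod_lt _ hk0
      obtain ⟨X, _, Y, A, hA, hpos, hfr⟩ := h s hs b (by omega)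
      refine sufficient_one hk hs (evper_inv k) Y hA hpos hψ b hfr x hsx hx3 ⟨0, 0, ?_⟩
      have e1 : (b : ℤ) = (s * x) % k := by omega
      rw [e1]
      have h1 : (s * x) % k ≡ s * x [ZMOD k] := Int.mod_modEq _ _
      have h2 := h1.mul_left s
      rw [← mul_assoc, hss, one_mul] at h2
      simpa using h2
    intro x
    rcases eq_or_ne x 0 with rfl | hx
    · refine ⟨0, 1, le_rfl, ?_⟩
      simp [Pool.Agent.Results.MP_7f88e4_nt.GowersStructure.T]
    · obtain ⟨j, h1, h2⟩ := reaches_cop hk hx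
      have h3 := key _ h1 h2
      exact (inv_iter (inv_of (evper_inv k)) j x).2 h3

end Pool.Agent.Results.MP_7f88e4_nt.MultipleRecurrence
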