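import Pool.Agent.Results.MP_d0d59f_nt.RandomStarts
import Pool.Agent.Q319.DR.MultP

/-!
# All the `3x+k` maps at once: descent of all orbits starting near the multiples of almost every real number

`H = 0.94995...` is the binary entropy of `log 2 / log 3` in bits. Let `0 ≤ ρ < δ ≤ 1` with `H ρ < (1 - H) δ`. For almost every
real number `y` of size `N ^ (1 - θ)` and all `j ≤ N ^ θ`, with few exceptions, the orbits of ALL integers `x` in a
window of radius `N ^ c` around `j y` (or `- j y`), under ALL the maps `T_{3,k}`, `gcd (k, 6) = 1`, `|k| ≤ |x| ^ ρ`,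
enter `[-|x| ^ δ, |x| ^ δ]`. The exceptional `y` and `j` depend neither on `k` nor on `x`.

From Mathlib: `volume`: the Lebesgue measure; `^[n]`: iterates; `Real.binEntropy`: the binary entropy function in nats. The
bound for the number of integers with an exceptional orbit is from the starting files (`Pool.Agent.TH930.UD.set_saving`), as
well as the count of the elements of arbitrary sets of integers in intervals at multiples of real numbers
(`Pool.Agent.H438R2.DL`).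
-/

set_option autoImplicit false

namespace Pool.Agent.Results.MP_7f88e4_nt.SimultaneousDescent

open Finset MeasureTheory

/-- The `3x+k` map on the integers. -/
def T (k x : ℤ) : ℤ := if x % 2 = 0 then x / 2 else (3 * x + k) / 2

/-- The binary entropy of `log 2 / log 3` in bits, `0.94995...`. -/
noncomputable def H : ℝ := Real.binEntropy (Real.log 2 / Real.log 3) / Real.log 2

/-- For ALL `k` prime to `6` with `|k| ≤ |x| ^ ρ` the orbit of `x` under `T_{3,k}` enters `[-|x| ^ δ, |x| ^ δ]`. -/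
def Descends (ρ δ : ℝ) (x : ℤ) : Prop :=
  ∀ k : ℤ, IsCoprime k 6 → |(k : ℝ)| ≤ |(x : ℝ)| ^ ρ → ∃ n : ℕ, |(((T k)^[n] x : ℤ) : ℝ)| ≤ |(x : ℝ)| ^ δ

open Classical in
/-- The number of the `j` with `1 ≤ j ≤ J` such that some integer `x` whose absolute value is at a distance of at most
`w` from `j y` does not have the property `Descends ρ δ`. -/
noncomputable def exceptions (ρ δ J y w : ℝ) : ℕ :=
  ((Icc 1 ⌊J⌋₊).filter (fun j : ℕ => ∃ x : ℤ, |(|(x : ℝ)|) - j * y| ≤ w ∧ ¬ Descends ρ δ x)).card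

/-- Let `0 ≤ ρ < δ ≤ 1`, `H ρ < (1 - H) δ` and `0 < θ < 1`. There is `c > 0` such that for all large `N` there is a set `E`
of real numbers of measure at most `N ^ (1 - θ - c)` with the following property. Let `y ∉ E` be a real number with
`N ^ (1 - θ) ≤ y ≤ 2 N ^ (1 - θ)`. For all `j ≤ N ^ θ`, with at most `N ^ (θ - c)` exceptions, the orbits of ALL
integers `x` with `||x| - j y| ≤ N ^ c` under ALL the maps `T_{3,k}`, `k` prime to `6`, `|k| ≤ |x| ^ ρ`, enter
`[-|x| ^ δ, |x| ^ δ]`. -/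
theorem result (ρ δ θ : ℝ) (hρ : 0 ≤ ρ) (hρδ : ρ < δ) (hδ : δ ≤ 1) (hH : H * ρ < (1 - H) * δ) (hθ : 0 < θ) (hθ1 : θ < 1) :
    ∃ c : ℝ, 0 < c ∧ ∃ N₀ : ℕ, ∀ N : ℕ, N₀ ≤ N →
      ∃ E : Set ℝ, MeasurableSet E ∧ volume E ≤ ENNReal.ofReal ((N : ℝ) ^ (1 - θ - c)) ∧
        ∀ y : ℝ, (N : ℝ) ^ (1 - θ) ≤ y → y ≤ 2 * (N : ℝ) ^ (1 - θ) → y ∉ E →
          (exceptions ρ δ ((N : ℝ) ^ θ) y ((N : ℝ) ^ c) : ℝ) ≤ (N : ℝ) ^ (θ - c) := by
  classical
  have hall := Pool.Agent.Results.MP_d0d59f_nt.RandomStarts.all hρ hρδ hδ hH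
  obtain ⟨κ, hκd⟩ : ∃ κ : ℝ, κ = ((1 - H) * δ - H * ρ) / 2 := ⟨_, rfl⟩
  have hκ : 0 < κ := by rw [hκd]; linarith
  have hHH : Pool.Agent.Results.MP_d0d59f_nt.RandomStarts.H = H := rfl
  rw [hHH] at hall
  have hH0 : 0 ≤ H := by
    rw [← hHH]
    exact Pool.Agent.Results.MP_d0d59f_nt.RandomStarts.H_nonneg
  have hH1 : H < 1 := by
    rw [← hHH]
    exact Pool.Agent.Results.MP_d0d59f_nt.RandomStarts.H_lt
  have hκ1 : κ < 1 := by
    rw [hκd]
    nlinarith
  obtain ⟨C, hC⟩ := hall (1 - κ) (by rw [hκd]; linarith)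
  obtain ⟨c, hc, h⟩ := Pool.Agent.Q319.DR.mult_fewP θ hθ hθ1 κ hκ
  refine ⟨c, hc, ?_⟩
  obtain ⟨N₀, hN₀⟩ := h C {n : ℕ | ¬ Pool.Agent.Results.MP_d0d59f_nt.RandomStarts.AllDescend ρ δ n} (fun X => by
    rcases Nat.eq_zero_or_pos X with hX | hX
    · subst hX
      rw [Nat.cast_zero, Real.zero_rpow (by linarith), mul_zero]
      simp
    · refine le_trans (le_of_eq ?_) (hC X hX)
      congr 2)
  refine ⟨N₀, fun N hN => ?_⟩
  obtain ⟨E, hE1, hE2, hE3⟩ := hN₀ N hN
  refine ⟨E, hE1, hE2, fun y hy1 hy2 hyE => le_trans ?_ (hE3 y hy1 hy2 hyE)⟩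
  unfold exceptions
  apply Nat.cast_le.2
  apply card_le_card
  intro j hj
  rw [mem_filter] at hj ⊢
  obtain ⟨hj1, x, hx1, hx2⟩ := hj
  refine ⟨hj1, x.natAbs, ?_, fun hd => hx2 ?_⟩
  · rw [Nat.cast_natAbs, Int.cast_abs]
    exact hx1
  · intro k hk6 hkx
    have hxa : ((x.natAbs : ℕ) : ℝ) = |(x : ℝ)| := by rw [Nat.cast_natAbs, Int.cast_abs]
    have hk2 : k % 2 = 1 := by
      rcases Int.emod_two_eq_zero_or_one k with h0 | h0
      · exfalso
        have h2 : (2 : ℤ) ∣ k := Int.dvd_of_emod_eq_zero h0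
        have h3 := hk6.isUnit_of_dvd' h2 (by norm_num : (2 : ℤ) ∣ 6)
        rw [Int.isUnit_iff] at h3
        omega
      · exact h0
    have hk3 : ¬ (3 : ℤ) ∣ k := by
      intro h2
      have h3 := hk6.isUnit_of_dvd' h2 (by norm_num : (3 : ℤ) ∣ 6)
      rw [Int.isUnit_iff] at h3
      omega
    obtain ⟨n, hn⟩ := hd k (by rw [hxa]; exact hkx) hk2 hk3 x rfl
    refine ⟨n, ?_⟩
    rw [← hxa]
    exact hn

end Pool.Agent.Results.MP_7f88e4_nt.SimultaneousDescent
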