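import Pool.Agent.Q49.WA.Res

set_option autoImplicit false

/-!
# Waring's problem with one summand in an invariant set of the `3x+k` map

Let `k` be prime to `6`, and `S` a set of integers that is invariant under the `3x+k` map and its inverse, with the
local density `φ` on the side `s` (a function of the residue modulo `k`). Let there be given families of integers of
size at most `N`, at least `2 t` of which have a `t`-th additive energy bounded by a constant times that of a random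
family; for example the values of given nonconstant polynomials at the first few integers. Then for EVERY integer
`n` of size `O(N)` and every class `c` modulo `k` the number of the representations of `n` as a sum of a positive
integer `d` congruent to `c` with `s d` in `S` and of one member of each family is `φ (s c)` times the number of
these representations in which `d` is any positive integer congruent to `c`, up to `ε` times the number of all
choices; uniformly in `n`, in the families and in `S`. In particular, for every `x₀ ∈ S` of sign `s` prime to `3`,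
every large integer is a sum of `|x|`, with `x ∈ S` of sign `s` and congruent to `x₀` modulo `k`, and of `r` positive
`K`-th powers, with `r` depending on `K` and `k` only.

Method: the circle method on a cyclic group (`Pool/Agent/Q49/WA`), with the Fourier uniformity of the invariant sets
(starting file `GowersStructure`) and bounds of moments of Weyl sums (starting file `Pool/Agent/Y834/CD/Poly.lean`).
-/

namespace Pool.Agent.Results.MP_7f88e4_nt.WaringProblem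

open Filter Topology
open Pool.Agent.Results.MP_7f88e4_nt.GowersStructure (EvPer Invariant Rel LocalDensity inv_of local_phi exists_local
  evper_inv reaches_cop)
open Pool.Agent.Results.MP_d02c56_nt.WaringProblem (Spread vals poly_spread)

/-- The number of the choices `v` of one member `a j (v j)` of each family such that the difference `d` of `n` and
the sum of these members is positive and congruent to `c` modulo `k`, and `s d` is in `S`. -/
noncomputable def reps (s k c : ℤ) (S : Set ℤ) (n : ℤ) {r : ℕ} {L : Fin r → ℕ} (a : ∀ j, Fin (L j) → ℤ) : ℕ :=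
  {v : ∀ j, Fin (L j) | 0 < n - ∑ j, a j (v j) ∧ n - ∑ j, a j (v j) ≡ c [ZMOD k] ∧ s * (n - ∑ j, a j (v j)) ∈ S}.ncard

/-- The number of the `r`-tuples of positive integers `m j` with `|P (m j)| ≤ n` for which the difference `d` of `n`
and the sum of the `P (m j)` is positive and congruent to `c` modulo `k`, and `s d` is in `S`. -/
noncomputable def polyReps (s k c : ℤ) (S : Set ℤ) (n : ℕ) (P : Polynomial ℤ) (r : ℕ) : ℕ :=
  {m : Fin r → ℕ | (∀ j, 1 ≤ m j ∧ |P.eval (m j : ℤ)| ≤ n) ∧ 0 < (n : ℤ) - ∑ j, P.eval (m j : ℤ) ∧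
    (n : ℤ) - ∑ j, P.eval (m j : ℤ) ≡ c [ZMOD k] ∧ s * ((n : ℤ) - ∑ j, P.eval (m j : ℤ)) ∈ S}.ncard

open Pool.Agent.W41 Pool.Agent.H499R2.ND Pool.Agent.H499R2.CO Pool.Agent.W41.FU Pool.Agent.W36.FD Pool.Agent.W36.GU
  Pool.Agent.W36.GV Pool.Agent.W36.GK Pool.Agent.W36.GL
open Pool.Agent.Q49.WA (repsQ polyRepsQ)

theorem reps_eq (s k c : ℤ) (S : Set ℤ) (n : ℤ) {r : ℕ} {L : Fin r → ℕ} (a : ∀ j, Fin (L j) → ℤ) :
    reps s k c S n a = repsQ (fun x => x ≡ c [ZMOD k] ∧ s * x ∈ S) n a := rfl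

theorem polyReps_eq (s k c : ℤ) (S : Set ℤ) (n : ℕ) (P : Polynomial ℤ) (r : ℕ) :
    polyReps s k c S n P r = polyRepsQ (fun x => x ≡ c [ZMOD k] ∧ s * x ∈ S) n P r := rfl

open scoped Classical in
/-- Fourier uniformity in a residue class -/
theorem fourier {k : ℤ} (hk : k % 6 = 1 ∨ k % 6 = 5) {s : ℤ} (hs : s = 1 ∨ s = -1) {ε : ℝ} (hε : 0 < ε) :
    ∃ N₀ : ℕ, ∀ S : Set ℤ, Invariant k S → ∀ φ : ℤ → ℝ, LocalDensity k s S φ → ∀ c : ℤ,
    ∀ Q Q' : ℤ → Prop, (∀ x : ℤ, Q x ↔ (x ≡ c [ZMOD k] ∧ s * x ∈ S)) → (∀ x : ℤ, Q' x ↔ x ≡ c [ZMOD k]) →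
    ∀ N : ℕ, N₀ ≤ N → ∀ α : ℝ,
    ‖∑ n ∈ Finset.Icc 1 N, (((if Q (n : ℕ) then (1 : ℝ) else 0)
      - φ (s * c) * (if Q' (n : ℕ) then 1 else 0) : ℝ) : ℂ)
      * Complex.exp (2 * Real.pi * (α * n : ℝ) * Complex.I)‖ ≤ ε * N := by
  have hk0 : k.natAbs ≠ 0 := by omega
  have : NeZero k.natAbs := ⟨hk0⟩
  obtain ⟨N0, h0⟩ := poly_orthD (F := BD k s) (fun f hf => BD_abs hf) (k := 1) (BD_sm hk hs 2) hε
  refine ⟨N0, fun S hS φ hφ c Q Q' hQ hQ' N hN α => ?_⟩
  have hmem : balD s S φ ∈ BD k s := ⟨S, inv_of hS, φ, local_phi hs hφ, rfl⟩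
  have h1 : ∀ β : ℝ, ‖∑ n ∈ Finset.Icc 1 N, ((balD s S φ (n : ℕ) : ℝ) : ℂ) * Complex.exp (2 * Real.pi * (β * n : ℝ) * Complex.I)‖
      ≤ ε * N := by
    intro β
    have h2 := h0 N hN _ hmem 0 N (Nat.zero_le _) le_rfl (Polynomial.C β * Polynomial.X)
      ((Polynomial.natDegree_C_mul_le _ _).trans Polynomial.natDegree_X_le)
    refine le_trans (le_of_eq ?_) h2
    congr 1
    have e0 : Finset.Ioc 0 N = Finset.Icc 1 N := by ext n; rw [Finset.mem_Ioc, Finset.mem_Icc]; omega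
    rw [e0]
    apply Finset.sum_congr rfl; intro n _
    unfold ex
    simp only [Polynomial.eval_mul, Polynomial.eval_C, Polynomial.eval_X]
  have h2 := Pool.Agent.Q49.WA.restrict (q := k.natAbs) (fun n => ((balD s S φ (n : ℕ) : ℝ) : ℂ)) N h1 c α
  refine le_trans (le_of_eq ?_) h2
  congr 1
  apply Finset.sum_congr rfl; intro n _
  congr 1
  have hcc : (n : ℤ) ≡ c [ZMOD (k.natAbs : ℤ)] ↔ (n : ℤ) ≡ c [ZMOD k] := by
    rw [Int.modEq_iff_dvd, Int.modEq_iff_dvd, Int.natAbs_dvd]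
  by_cases hc : (n : ℤ) ≡ c [ZMOD k]
  · rw [if_pos (hcc.2 hc)]
    have h3 : φ (s * n) = φ (s * c) := by
      refine hφ.2.1 _ _ ⟨0, 0, ?_⟩
      have := hc.mul_left s
      simpa using this
    rw [if_pos ((hQ' n).2 hc), mul_one]
    unfold balD ind
    rw [h3]
    by_cases h5 : s * (n : ℤ) ∈ S
    · rw [if_pos ((hQ n).2 ⟨hc, h5⟩), if_pos h5]
    · rw [if_neg (fun h => h5 ((hQ n).1 h).2), if_neg h5]
  · rw [if_neg (fun h => hc (hcc.1 h)), if_neg (fun h => hc ((hQ' n).1 h)), if_neg (fun h => hc ((hQ n).1 h).1)]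
    simp

theorem general {k : ℤ} (hk : k % 6 = 1 ∨ k % 6 = 5) {s : ℤ} (hs : s = 1 ∨ s = -1) (r t B : ℕ) (ht : 1 ≤ t) (C : ℝ)
    {ε : ℝ} (hε : 0 < ε) :
    ∃ N₀ : ℕ, ∀ S : Set ℤ, Invariant k S → ∀ φ : ℤ → ℝ, LocalDensity k s S φ →
      ∀ N : ℕ, N₀ ≤ N → ∀ (L : Fin r → ℕ) (a : ∀ j, Fin (L j) → ℤ), (∀ j i, |a j i| ≤ N) →
      ∀ J : Finset (Fin r), 2 * t ≤ J.card → (∀ j ∈ J, Spread t C N (a j)) →
      ∀ n : ℤ, |n| ≤ B * N → ∀ c : ℤ,
        |(reps s k c S n a : ℝ) - φ (s * c) * reps s k c Set.univ n a| ≤ ε * ∏ j, (L j : ℝ) := by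
  obtain ⟨ε₁, h1, h1', W, hW, H⟩ := Pool.Agent.Q49.WA.compare (r := r) (B := B) ht (le_max_right C 0) hε
  obtain ⟨N₀, hN₀⟩ := fourier hk hs h1
  refine ⟨N₀ + 1, fun S hS φ hφ N hN L a ha J hJ hsp n hn c => ?_⟩
  rw [reps_eq, reps_eq]
  have hNW : N ≤ W * N := Nat.le_mul_of_pos_left _ (by omega)
  generalize hQ : (fun x : ℤ => x ≡ c [ZMOD k] ∧ s * x ∈ S) = Q
  generalize hQ' : (fun x : ℤ => x ≡ c [ZMOD k] ∧ s * x ∈ (Set.univ : Set ℤ)) = Q'
  have hF := hN₀ S hS φ hφ c Q Q' (fun x => by rw [← hQ]) (fun x => by rw [← hQ']; simp) (W * N) (by omega)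
  refine H N (by omega) Q Q' (φ (s * c)) hF L a ha J hJ (fun j hj => ?_) n hn
  have h3 := hsp j hj
  unfold Spread at h3 ⊢
  refine le_trans h3 ?_
  apply div_le_div_of_nonneg_right _ (Nat.cast_nonneg _)
  exact mul_le_mul_of_nonneg_right (le_max_left _ _) (by positivity)

/-- residues which solve the congruence -/
theorem residues {k : ℤ} (hk : k ≠ 0) {P : Polynomial ℤ} {u₁ u₂ : ℤ} (hu : IsCoprime (P.eval u₁ - P.eval u₂) k) {r : ℕ}
    (hr : k.natAbs ≤ r) (n c : ℤ) : ∃ u : Fin r → ℤ, n - ∑ j, P.eval (u j) ≡ c [ZMOD k] := by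
  obtain ⟨x, y, hxy⟩ := hu
  set D : ℤ := P.eval u₁ - P.eval u₂ with hD
  -- the number of the indices with u₁
  set z : ℤ := (x * (n - c - r * P.eval u₂)) % k with hz
  have hz0 : 0 ≤ z := Int.emod_nonneg _ hk
  have hz1 : z < k.natAbs := Int.emod_lt _ hk
  have hz2 : z ≡ x * (n - c - r * P.eval u₂) [ZMOD k] := Int.mod_modEq _ _
  refine ⟨fun j => if (j : ℕ) < z.toNat then u₁ else u₂, ?_⟩
  have h1 : ∑ j : Fin r, P.eval (if (j : ℕ) < z.toNat then u₁ else u₂) = r * P.eval u₂ + z * D := by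
    have h2 : ∀ j : Fin r, P.eval (if (j : ℕ) < z.toNat then u₁ else u₂) = P.eval u₂ + if (j : ℕ) < z.toNat then D else 0 := by
      intro j
      split_ifs
      · rw [hD]; ring
      · ring
    rw [Finset.sum_congr rfl fun j _ => h2 j, Finset.sum_add_distrib, Finset.sum_const, Finset.card_univ, Fintype.card_fin,
      ← Finset.sum_filter, Finset.sum_const]
    have h3 : (Finset.univ.filter (fun j : Fin r => (j : ℕ) < z.toNat)).card = z.toNat := by
      rw [Fin.card_filter_val_lt]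
      omega
    rw [h3, nsmul_eq_mul, nsmul_eq_mul]
    have h4 : ((z.toNat : ℕ) : ℤ) = z := Int.toNat_of_nonneg hz0
    rw [h4]
  rw [h1]
  have h2 : z * D ≡ x * (n - c - r * P.eval u₂) * D [ZMOD k] := hz2.mul_right D
  have h3 : x * (n - c - r * P.eval u₂) * D ≡ n - c - r * P.eval u₂ [ZMOD k] := by
    rw [Int.modEq_iff_dvd]
    refine ⟨y * (n - c - r * P.eval u₂), ?_⟩
    have : x * D = 1 - y * k := by linarith
    calc n - c - r * P.eval u₂ - x * (n - c - r * P.eval u₂) * D = (n - c - r * P.eval u₂) * (1 - x * D) := by ring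
      _ = _ := by rw [this]; ring
  have h4 := h2.trans h3
  have h5 : n - (r * P.eval u₂ + z * D) ≡ n - (r * P.eval u₂ + (n - c - r * P.eval u₂)) [ZMOD k] :=
    (Int.ModEq.refl n).sub ((Int.ModEq.refl _).add h4)
  have h6 : n - (r * P.eval u₂ + (n - c - r * P.eval u₂)) = c := by ring
  rwa [h6] at h5

/-- the number of the choices with given residues -/
theorem class_count {q : ℕ} (hq : 0 < q) {r L : ℕ} (u : Fin r → ℤ) :
    (L / q) ^ r ≤ {v : Fin r → Fin L | ∀ j, (((v j : ℕ) + 1 : ℕ) : ℤ) ≡ u j [ZMOD q]}.ncard := by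
  classical
  have hq0 : (q : ℤ) ≠ 0 := by exact_mod_cast hq.ne'
  set w : Fin r → ℕ := fun j => ((u j - 1) % q).toNat with hw
  have hw1 : ∀ j, (w j : ℤ) = (u j - 1) % q := fun j => Int.toNat_of_nonneg (Int.emod_nonneg _ hq0)
  have hw2 : ∀ j, w j < q := fun j => by
    have h1 : (u j - 1) % (q : ℤ) < q := Int.emod_lt_of_pos _ (by exact_mod_cast hq)
    have h2 := hw1 j
    omega
  have hlt : ∀ (j : Fin r) (i : Fin (L / q)), q * (i : ℕ) + w j < L := by
    intro j i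
    have h1 := i.2
    have h2 := hw2 j
    have h3 : q * ((i : ℕ) + 1) ≤ q * (L / q) := Nat.mul_le_mul_left q h1
    have h4 := Nat.mul_div_le L q
    have h5 : q * ((i : ℕ) + 1) = q * i + q := by ring
    omega
  set Φ : (Fin r → Fin (L / q)) → (Fin r → Fin L) := fun i j => ⟨q * (i j : ℕ) + w j, hlt j (i j)⟩ with hΦ
  have hinj : Function.Injective Φ := by
    intro i i' h
    funext j
    have h1 := congrArg Fin.val (congrFun h j)
    simp only [hΦ] at h1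
    have h2 : q * (i j : ℕ) = q * (i' j : ℕ) := by omega
    exact Fin.ext (Nat.eq_of_mul_eq_mul_left hq h2)
  have h1 : (Set.range Φ).ncard = (L / q) ^ r := by
    rw [← Set.image_univ, Set.ncard_image_of_injective _ hinj, Set.ncard_univ, Nat.card_eq_fintype_card, Fintype.card_fun,
      Fintype.card_fin, Fintype.card_fin]
  rw [← h1]
  apply Set.ncard_le_ncard _ (Set.toFinite _)
  rintro _ ⟨i, rfl⟩ j
  show ((q * (i j : ℕ) + w j + 1 : ℕ) : ℤ) ≡ u j [ZMOD q]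
  have h2 : (w j : ℤ) ≡ u j - 1 [ZMOD q] := by rw [hw1]; exact Int.mod_modEq _ _
  have h3 : ((q * (i j : ℕ) + w j + 1 : ℕ) : ℤ) = q * (i j : ℕ) + (w j + 1) := by push_cast; ring
  rw [h3]
  have h4 : (q : ℤ) * (i j : ℕ) + (w j + 1) ≡ 0 + ((u j - 1) + 1) [ZMOD q] := by
    apply Int.ModEq.add
    · rw [Int.modEq_iff_dvd]
      exact ⟨-((i j : ℕ) : ℤ), by ring⟩
    · exact h2.add_right 1
  simpa using h4

/-- every large integer -/
theorem every {k : ℤ} (hk : k % 6 = 1 ∨ k % 6 = 5) {P : Polynomial ℤ} (hP : 1 ≤ P.natDegree) {u₁ u₂ : ℤ}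
    (hu : IsCoprime (P.eval u₁ - P.eval u₂) k) : ∃ r₀ : ℕ, 1 ≤ r₀ ∧ ∀ r : ℕ, r₀ ≤ r →
    ∀ s : ℤ, (s = 1 ∨ s = -1) → ∀ S : Set ℤ, Invariant k S → ∀ c : ℤ,
    (∃ x ∈ S, 0 < s * x ∧ ¬ (3 : ℤ) ∣ x ∧ Rel k (s * c) x) → ∃ κ : ℝ, 0 < κ ∧
    ∃ n₀ : ℕ, ∀ n : ℕ, n₀ ≤ n → κ * (n : ℝ) ^ ((r : ℝ) / P.natDegree) ≤ polyReps s k c S n P r := by
  classical
  have hk0 : k ≠ 0 := by omega
  set q : ℕ := k.natAbs with hq
  have hq0 : 0 < q := Int.natAbs_pos.2 hk0
  have hqR : (0 : ℝ) < q := by exact_mod_cast hq0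
  obtain ⟨t₀, C, hC, hsp⟩ := poly_spread P hP
  set t : ℕ := t₀ + 1 with ht
  refine ⟨2 * t + q, by omega, fun r hr s hs S hS c hx => ?_⟩
  obtain ⟨x, hxS, hx0, hx3, hrel⟩ := hx
  obtain ⟨φ, hφ⟩ := exists_local hk hs hS
  have hφ0 : 0 < φ (s * c) := hφ.2.2.2 _ x hxS hx0 hx3 hrel
  obtain ⟨B, hB1, hbox⟩ := Pool.Agent.Q49.WA.boxes hP (r := r) (by omega)
  have hBR : (0 : ℝ) < B := by exact_mod_cast hB1
  set η : ℝ := φ (s * c) * (1 / (2 * q)) ^ r with hη
  have hη0 : 0 < η := by rw [hη]; positivity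
  obtain ⟨N₀, hN₀⟩ := general hk hs r t B (by omega) (C * B) (show 0 < η / 2 by positivity)
  refine ⟨η / 2 * (1 / (B : ℝ)) ^ ((r : ℝ) / P.natDegree), by positivity, N₀ + B + B * (2 * q) ^ P.natDegree + 1, fun n hn => ?_⟩
  obtain ⟨L, hL1, hL3, hval, hpos, hfin⟩ := hbox n (by omega)
  rw [polyReps_eq]
  refine hfin _ (η / 2) (by positivity) ?_
  have ha : ∀ (j : Fin r) (i : Fin L), |(fun _ : Fin r => vals P L) j i| ≤ (n : ℤ) := fun j i =>
    hval ((i : ℕ) + 1) (Nat.le_add_left 1 _) i.2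
  have hspr : ∀ j : Fin r, Spread t (C * B) n ((fun _ : Fin r => vals P L) j) := fun j =>
    hsp t (by omega) B L n (by omega) hL3
  have hnB : |(n : ℤ)| ≤ B * n := by
    rw [abs_of_nonneg (Nat.cast_nonneg _)]
    exact_mod_cast Nat.le_mul_of_pos_left _ hB1
  have h1 := hN₀ S hS φ hφ n (by omega) (fun _ => L) (fun _ => vals P L) ha Finset.univ
    (by rw [Finset.card_univ, Fintype.card_fin]; omega) (fun j _ => hspr j) n hnB c
  simp only [Finset.prod_const, Finset.card_univ, Fintype.card_fin] at h1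
  -- L is large
  have hL2 : 2 * q ≤ L := by
    by_contra hcon
    rw [not_le] at hcon
    have h2 : B * L ^ P.natDegree ≤ B * (2 * q) ^ P.natDegree :=
      Nat.mul_le_mul_left _ (Nat.pow_le_pow_left hcon.le _)
    omega
  -- many choices in the class
  obtain ⟨u, hu'⟩ := residues hk0 hu (r := r) (by omega) (n : ℤ) c
  have h2 : ((L / q) ^ r : ℕ) ≤ reps s k c Set.univ (n : ℤ) (fun _ : Fin r => vals P L) := by
    refine (class_count hq0 u).trans ?_
    unfold reps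
    apply Set.ncard_le_ncard _ (Set.toFinite _)
    intro v hv
    refine ⟨hpos v, ?_, trivial⟩
    have h3 : ∀ j, P.eval (((v j : ℕ) + 1 : ℕ) : ℤ) ≡ P.eval (u j) [ZMOD k] := by
      intro j
      have h4 := hv j
      rw [Int.modEq_iff_dvd] at h4 ⊢
      have h5 : k ∣ u j - (((v j : ℕ) + 1 : ℕ) : ℤ) := by
        rw [hq, Int.natAbs_dvd] at h4
        exact h4
      exact h5.trans (Polynomial.sub_dvd_eval_sub _ _ P)
    have h4 : ∑ j, vals P L (v j) ≡ ∑ j, P.eval (u j) [ZMOD k] := by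
      rw [Int.modEq_iff_dvd, ← Finset.sum_sub_distrib]
      exact Finset.dvd_sum fun j _ => Int.modEq_iff_dvd.1 (h3 j)
    exact ((Int.ModEq.refl (n : ℤ)).sub h4).trans hu'
  have h3 : (1 / (2 * (q : ℝ))) ^ r * (L : ℝ) ^ r ≤ ((L / q : ℕ) : ℝ) ^ r := by
    rw [← mul_pow]
    apply pow_le_pow_left₀ (by positivity)
    have h4 : L < q * (L / q + 1) := Nat.lt_mul_div_succ L hq0
    have h5 : (L : ℝ) ≤ q * ((L / q : ℕ) + 1) := by exact_mod_cast h4.le
    have h6 : (2 : ℝ) * q ≤ L := by exact_mod_cast hL2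
    rw [div_mul_eq_mul_div, one_mul, div_le_iff₀ (by positivity)]
    nlinarith
  have h4 : (1 / (2 * (q : ℝ))) ^ r * (L : ℝ) ^ r ≤ reps s k c Set.univ (n : ℤ) (fun _ : Fin r => vals P L) := by
    refine h3.trans ?_
    exact_mod_cast h2
  have h5 := (abs_le.1 h1).1
  have h6 : φ (s * c) * ((1 / (2 * (q : ℝ))) ^ r * (L : ℝ) ^ r) ≤
      φ (s * c) * reps s k c Set.univ (n : ℤ) (fun _ : Fin r => vals P L) := mul_le_mul_of_nonneg_left h4 hφ0.le
  have h7 : η * (L : ℝ) ^ r = φ (s * c) * ((1 / (2 * (q : ℝ))) ^ r * (L : ℝ) ^ r) := by rw [hη]; ring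
  change η / 2 * (L : ℝ) ^ r ≤ (reps s k c S (n : ℤ) (fun _ : Fin r => vals P L) : ℝ)
  linarith

theorem powers {k : ℤ} (hk : k % 6 = 1 ∨ k % 6 = 5) {K : ℕ} (hK : 1 ≤ K) : ∃ r : ℕ, 1 ≤ r ∧
    ∀ s : ℤ, (s = 1 ∨ s = -1) → ∀ S : Set ℤ, Invariant k S →
    ∀ x₀ ∈ S, 0 < s * x₀ → ¬ (3 : ℤ) ∣ x₀ → ∃ n₀ : ℕ, ∀ n : ℕ, n₀ ≤ n → ∃ x ∈ S, 0 < s * x ∧ x ≡ x₀ [ZMOD k] ∧
      ∃ m : Fin r → ℕ, (∀ j, 1 ≤ m j) ∧ (n : ℤ) = s * x + ∑ j, (m j : ℤ) ^ K := by
  have hdeg : (Polynomial.X ^ K : Polynomial ℤ).natDegree = K := Polynomial.natDegree_X_pow K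
  obtain ⟨r, hr, H⟩ := every hk (P := Polynomial.X ^ K) (by rw [hdeg]; exact hK) (u₁ := 1) (u₂ := 0) (by
    simp only [Polynomial.eval_pow, Polynomial.eval_X, one_pow, zero_pow (by omega : K ≠ 0), sub_zero]
    exact isCoprime_one_left)
  refine ⟨r, hr, fun s hs S hS x₀ hx₀ h0 h3 => ?_⟩
  have hss : s * s = 1 := by rcases hs with rfl | rfl <;> norm_num
  have hsx : s * (s * x₀) = x₀ := by rw [← mul_assoc, hss, one_mul]
  obtain ⟨κ, hκ, n₀, h⟩ := H r le_rfl s hs S hS (s * x₀) ⟨x₀, hx₀, h0, h3, 0, 0, by rw [hsx]; simp⟩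
  refine ⟨n₀ + 1, fun n hn => ?_⟩
  have h1 := h n (by omega)
  have hn0 : (0 : ℝ) < n := by exact_mod_cast (by omega : 0 < n)
  have h2 : (0 : ℝ) < polyReps s k (s * x₀) S n (Polynomial.X ^ K) r := lt_of_lt_of_le (by positivity) h1
  have h3 : {m : Fin r → ℕ | (∀ j, 1 ≤ m j ∧ |(Polynomial.X ^ K : Polynomial ℤ).eval (m j : ℤ)| ≤ n) ∧
      0 < (n : ℤ) - ∑ j, (Polynomial.X ^ K : Polynomial ℤ).eval (m j : ℤ) ∧
      (n : ℤ) - ∑ j, (Polynomial.X ^ K : Polynomial ℤ).eval (m j : ℤ) ≡ s * x₀ [ZMOD k] ∧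
      s * ((n : ℤ) - ∑ j, (Polynomial.X ^ K : Polynomial ℤ).eval (m j : ℤ)) ∈ S}.Nonempty := by
    apply Set.nonempty_of_ncard_ne_zero
    intro h0
    unfold polyReps at h2
    rw [h0] at h2
    simp at h2
  obtain ⟨m, hm1, hm2, hm3, hm4⟩ := h3
  simp only [Polynomial.eval_pow, Polynomial.eval_X] at hm1 hm2 hm3 hm4
  have e1 : s * (s * ((n : ℤ) - ∑ j, (m j : ℤ) ^ K)) = (n : ℤ) - ∑ j, (m j : ℤ) ^ K := by
    rw [← mul_assoc, hss, one_mul]
  refine ⟨_, hm4, by rw [e1]; exact hm2, ?_, m, fun j => (hm1 j).1, by rw [e1]; ring⟩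
  have h5 := hm3.mul_left s
  rwa [hsx] at h5

/-- WARING'S PROBLEM WITH ONE SUMMAND IN AN INVARIANT SET OF THE `3x+k` MAP, `k` congruent to `1` or `5` modulo `6`.
Let `s` be a sign.
(1) For all `r`, `t ≥ 1`, `B`, `C`, `ε > 0` there is `N₀` such that for every invariant set `S` (with local density
`φ` on the side `s`; it exists), all `N ≥ N₀`, all `r` families of integers of absolute value at most `N`, at least
`2 t` of which have energy at most `C L ^ (2 t) / N`, EVERY integer `n` with `|n| ≤ B N` and every class `c` modulo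
`k`: the number of the representations of `n` as a sum of a positive integer `d` congruent to `c` with `s d ∈ S` and
of one member of each family is `φ (s c)` times the number of these representations with `d > 0` congruent to `c`,
up to `ε` times the number of all choices. (2) For every nonconstant integer polynomial `P` there are `t`, `C` such
that the families `P(1), ..., P(L)` satisfy the condition in (1) with the constant `C B` if `N ≤ B L ^ deg P`.
(3) Let `P` be a nonconstant integer polynomial with `P(u₁) - P(u₂)` prime to `k` for some `u₁, u₂`, and `r ≥ r₀ (P)`.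
If `S` is invariant and contains an `x₀` of sign `s` prime to `3` whose residue is that of `s c` up to factors `2`
and `3`, then for every large `n` at least `κ n ^ (r / deg P)` tuples of positive integers `m j` are such that
`d = n - ∑ P (m j)` is positive, congruent to `c` modulo `k`, and `s d ∈ S`.
(4) For every `K ≥ 1` there is `r` such that for both signs `s`, every invariant set `S` and every `x₀ ∈ S` of sign
`s` prime to `3`, every large integer is the sum of `s x` for some `x ∈ S` of sign `s` congruent to `x₀` modulo `k`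
and of `r` positive `K`-th powers.
(5) Let `P` be as in (3), and `r ≥ r₀ (P)`. If for both signs `s`, for infinitely many `n` only
`o(n ^ (r / deg P))` of the tuples of positive integers `m j` lead to an integer `d = n - ∑ P (m j) > 0` such that the
orbit of `s d` is not eventually periodic, then all orbits of the `3x+k` map are eventually periodic. -/
theorem result (k : ℤ) (hk : k % 6 = 1 ∨ k % 6 = 5) :
    (∀ s : ℤ, (s = 1 ∨ s = -1) → ∀ (r t B : ℕ), 1 ≤ t → ∀ C ε : ℝ, 0 < ε →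
      ∃ N₀ : ℕ, ∀ S : Set ℤ, Invariant k S → ∃ φ : ℤ → ℝ, LocalDensity k s S φ ∧
      ∀ N : ℕ, N₀ ≤ N → ∀ (L : Fin r → ℕ) (a : ∀ j, Fin (L j) → ℤ), (∀ j i, |a j i| ≤ N) →
      ∀ J : Finset (Fin r), 2 * t ≤ J.card → (∀ j ∈ J, Spread t C N (a j)) → ∀ n : ℤ, |n| ≤ B * N → ∀ c : ℤ,
        |(reps s k c S n a : ℝ) - φ (s * c) * reps s k c Set.univ n a| ≤ ε * ∏ j, (L j : ℝ)) ∧
    (∀ P : Polynomial ℤ, 1 ≤ P.natDegree → ∃ t : ℕ, 1 ≤ t ∧ ∃ C : ℝ, ∀ B L N : ℕ, 1 ≤ N →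
      N ≤ B * L ^ P.natDegree → Spread t (C * B) N (vals P L)) ∧
    (∀ P : Polynomial ℤ, 1 ≤ P.natDegree → (∃ u₁ u₂ : ℤ, IsCoprime (P.eval u₁ - P.eval u₂) k) →
      ∃ r₀ : ℕ, ∀ r : ℕ, r₀ ≤ r → ∀ s : ℤ, (s = 1 ∨ s = -1) → ∀ S : Set ℤ, Invariant k S → ∀ c : ℤ,
      (∃ x₀ ∈ S, 0 < s * x₀ ∧ ¬ (3 : ℤ) ∣ x₀ ∧ Rel k (s * c) x₀) → ∃ κ : ℝ, 0 < κ ∧
      ∃ n₀ : ℕ, ∀ n : ℕ, n₀ ≤ n → κ * (n : ℝ) ^ ((r : ℝ) / P.natDegree) ≤ polyReps s k c S n P r) ∧
    (∀ K : ℕ, 1 ≤ K → ∃ r : ℕ, 1 ≤ r ∧ ∀ s : ℤ, (s = 1 ∨ s = -1) → ∀ S : Set ℤ, Invariant k S →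
      ∀ x₀ ∈ S, 0 < s * x₀ → ¬ (3 : ℤ) ∣ x₀ → ∃ n₀ : ℕ, ∀ n : ℕ, n₀ ≤ n → ∃ x ∈ S, 0 < s * x ∧ x ≡ x₀ [ZMOD k] ∧
        ∃ m : Fin r → ℕ, (∀ j, 1 ≤ m j) ∧ (n : ℤ) = s * x + ∑ j, (m j : ℤ) ^ K) ∧
    ∀ P : Polynomial ℤ, 1 ≤ P.natDegree → (∃ u₁ u₂ : ℤ, IsCoprime (P.eval u₁ - P.eval u₂) k) →
      ∃ r₀ : ℕ, ∀ r : ℕ, r₀ ≤ r → ∀ ψ : ℕ → ℝ, Tendsto ψ atTop (𝓝 0) →
      (∀ s : ℤ, (s = 1 ∨ s = -1) → ∃ᶠ n : ℕ in atTop,
        (polyReps s 1 0 {x | ¬ EvPer k x} n P r : ℝ) ≤ ψ n * (n : ℝ) ^ ((r : ℝ) / P.natDegree)) →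
      ∀ x : ℤ, EvPer k x := by
  refine ⟨fun s hs r t B ht C ε hε => ?_, fun P hP => ?_, fun P hP hu => ?_, fun K hK => powers hk hK, fun P hP hu => ?_⟩
  · obtain ⟨N₀, hN₀⟩ := general hk hs r t B ht C hε
    refine ⟨N₀, fun S hS => ?_⟩
    obtain ⟨φ, hφ⟩ := exists_local hk hs hS
    exact ⟨φ, hφ, hN₀ S hS φ hφ⟩
  · obtain ⟨t₀, C, -, H⟩ := poly_spread P hP
    exact ⟨t₀ + 1, by omega, C, fun B L N hN hNL => H (t₀ + 1) (by omega) B L N hN hNL⟩
  · obtain ⟨u₁, u₂, hu⟩ := hu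
    obtain ⟨r₀, _, H⟩ := every hk hP hu
    exact ⟨r₀, H⟩
  · obtain ⟨u₁, u₂, hu⟩ := hu
    obtain ⟨r₀, _, H⟩ := every hk hP hu
    refine ⟨r₀, fun r hr ψ hψ h => ?_⟩
    have hSc : Invariant k {x | ¬ EvPer k x} := fun x => not_congr (evper_inv k x)
    have key : ∀ x : ℤ, x ≠ 0 → ¬ (3 : ℤ) ∣ x → EvPer k x := by
      intro x hx hx3
      by_contra hcon
      obtain ⟨s, hs, hsx⟩ : ∃ s : ℤ, (s = 1 ∨ s = -1) ∧ 0 < s * x := by
        rcases lt_or_gt_of_ne hx with h0 | h0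
        · exact ⟨-1, Or.inr rfl, by omega⟩
        · exact ⟨1, Or.inl rfl, by omega⟩
      have hss : s * s = 1 := by rcases hs with rfl | rfl <;> norm_num
      have hsx' : s * (s * x) = x := by rw [← mul_assoc, hss, one_mul]
      obtain ⟨κ, hκ, n₀, h1⟩ := H r hr s hs _ hSc (s * x) ⟨x, hcon, hsx, hx3, 0, 0, by rw [hsx']; simp⟩
      have h2 : ∀ᶠ n : ℕ in atTop, ψ n < κ := (tendsto_order.1 hψ).2 κ hκ
      obtain ⟨N, h3, h4, h5⟩ := ((h s hs).and_eventually (h2.and (eventually_ge_atTop (n₀ + 1)))).exists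
      have h6 := h1 N (by omega)
      have hn0 : (0 : ℝ) < N := by exact_mod_cast (by omega : 0 < N)
      have h7 : ψ N * (N : ℝ) ^ ((r : ℝ) / P.natDegree) < κ * (N : ℝ) ^ ((r : ℝ) / P.natDegree) :=
        mul_lt_mul_of_pos_right h4 (by positivity)
      have h8 : polyReps s k (s * x) {x | ¬ EvPer k x} N P r ≤ polyReps s 1 0 {x | ¬ EvPer k x} N P r := by
        unfold polyReps
        apply Set.ncard_le_ncard _ (Pool.Agent.Q49.WA.polyRepsQ_finite (fun x => x ≡ 0 [ZMOD 1] ∧ s * x ∈ {x | ¬ EvPer k x}) N P hP r)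
        rintro m ⟨b1, b2, _, b3⟩
        exact ⟨b1, b2, Int.modEq_one, b3⟩
      have h9 : ((polyReps s k (s * x) {x | ¬ EvPer k x} N P r : ℕ) : ℝ) ≤ polyReps s 1 0 {x | ¬ EvPer k x} N P r := by
        exact_mod_cast h8
      linarith
    intro x
    rcases eq_or_ne x 0 with rfl | hx
    · refine ⟨0, 1, le_rfl, ?_⟩
      simp [Pool.Agent.Results.MP_7f88e4_nt.GowersStructure.T]
    · obtain ⟨j, h1, h2⟩ := reaches_cop hk hx
      have h3 := key _ h1 h2
      exact (inv_iter (inv_of (evper_inv k)) j x).2 h3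

end Pool.Agent.Results.MP_7f88e4_nt.WaringProblem
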